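import Mathlib

/-!
# Implication zroupoids and their lattice of varieties

Basic definitions: algebras of type `(2, 0)`, terms, identities, implication zroupoids, and
the lattice `IZVar` of all varieties of implication zroupoids.
-/

namespace Pool.Agent.IZ726

/-- Algebras of type `(2, 0)`. -/
structure ZAlg : Type 1 where
  /-- the underlying set -/
  carrier : Type
  /-- the binary operation `→` -/
  imp : carrier → carrier → carrier
  /-- the constant `0` -/
  zero : carrier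

/-- `x' = x → 0`. -/
def ZAlg.pr (A : ZAlg) (x : A.carrier) : A.carrier := A.imp x A.zero

/-- Terms in the variables `x_0, x_1, …`. -/
inductive Term : Type
  | var : ℕ → Term
  | zero : Term
  | imp : Term → Term → Term

/-- The value of a term in an algebra under an assignment. -/
def Term.eval (A : ZAlg) (v : ℕ → A.carrier) : Term → A.carrier
  | .var n => v n
  | .zero => A.zero
  | .imp s t => A.imp (s.eval A v) (t.eval A v)

/-- The identity `s ≈ t` holds in `A`. -/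
def Holds (A : ZAlg) (s t : Term) : Prop :=
  ∀ v : ℕ → A.carrier, s.eval A v = t.eval A v

/-- `A` is an implication zroupoid:
`(x → y) → z = ((z' → x) → (y → z)')'` and `0'' = 0`. -/
def IsIZ (A : ZAlg) : Prop :=
  (∀ x y z : A.carrier, A.imp (A.imp x y) z =
    A.pr (A.imp (A.imp (A.pr z) x) (A.pr (A.imp y z)))) ∧
  A.pr (A.pr A.zero) = A.zero

/-- The class of all implication zroupoids satisfying the identities in `E`. -/
def Mod (E : Set (Term × Term)) : Set ZAlg :=
  {A | IsIZ A ∧ ∀ e ∈ E, Holds A e.1 e.2}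

/-- The variety of implication zroupoids generated by a class `K`: all implication zroupoids
that satisfy every identity valid in `K`. -/
def gen (K : Set ZAlg) : Set ZAlg :=
  {A | IsIZ A ∧ ∀ s t : Term, (∀ B ∈ K, Holds B s t) → Holds A s t}

/-- A variety of implication zroupoids: a class of the form `Mod E`. -/
def IsVariety (K : Set ZAlg) : Prop := ∃ E : Set (Term × Term), K = Mod E

/-- The varieties of implication zroupoids. -/
def IZVar : Type 1 := {K : Set ZAlg // IsVariety K}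

theorem gen_isVariety (K : Set ZAlg) : IsVariety (gen K) := by
  refine ⟨{e | ∀ B ∈ K, Holds B e.1 e.2}, ?_⟩
  ext A
  constructor
  · rintro ⟨h1, h2⟩
    exact ⟨h1, fun e he => h2 e.1 e.2 he⟩
  · rintro ⟨h1, h2⟩
    exact ⟨h1, fun s t h => h2 (s, t) h⟩

theorem inter_isVariety {K L : Set ZAlg} (hK : IsVariety K) (hL : IsVariety L) :
    IsVariety (K ∩ L) := by
  obtain ⟨E, rfl⟩ := hK
  obtain ⟨F, rfl⟩ := hL
  refine ⟨E ∪ F, ?_⟩
  ext A
  constructor
  · rintro ⟨⟨h1, h2⟩, ⟨_, h3⟩⟩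
    exact ⟨h1, fun e he => he.elim (h2 e) (h3 e)⟩
  · rintro ⟨h1, h2⟩
    exact ⟨⟨h1, fun e he => h2 e (Or.inl he)⟩, ⟨h1, fun e he => h2 e (Or.inr he)⟩⟩

theorem isIZ_of_mem {K : Set ZAlg} (hK : IsVariety K) {A : ZAlg} (hA : A ∈ K) : IsIZ A := by
  obtain ⟨E, rfl⟩ := hK
  exact hA.1

theorem subset_gen {K : Set ZAlg} (hK : ∀ A ∈ K, IsIZ A) : K ⊆ gen K :=
  fun A hA => ⟨hK A hA, fun _ _ h => h A hA⟩

theorem gen_subset {K L : Set ZAlg} (hL : IsVariety L) (h : K ⊆ L) : gen K ⊆ L := by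
  obtain ⟨E, rfl⟩ := hL
  rintro A ⟨h1, h2⟩
  exact ⟨h1, fun e he => h2 e.1 e.2 fun B hB => (h hB).2 e he⟩

/-- The lattice of varieties of implication zroupoids, ordered by inclusion: the meet is the
intersection and the join is the variety generated by the union. -/
instance : Lattice IZVar where
  le K L := K.1 ⊆ L.1
  le_refl K := Set.Subset.refl K.1
  le_trans _ _ _ := Set.Subset.trans
  le_antisymm K L h1 h2 := Subtype.ext (Set.Subset.antisymm h1 h2)
  sup K L := ⟨gen (K.1 ∪ L.1), gen_isVariety _⟩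
  inf K L := ⟨K.1 ∩ L.1, inter_isVariety K.2 L.2⟩
  le_sup_left K L := fun A hA => subset_gen
    (fun B hB => hB.elim (fun h => isIZ_of_mem K.2 h) (fun h => isIZ_of_mem L.2 h)) (Or.inl hA)
  le_sup_right K L := fun A hA => subset_gen
    (fun B hB => hB.elim (fun h => isIZ_of_mem K.2 h) (fun h => isIZ_of_mem L.2 h)) (Or.inr hA)
  sup_le _ _ M h1 h2 := gen_subset M.2 (Set.union_subset h1 h2)
  inf_le_left _ _ := Set.inter_subset_left
  inf_le_right _ _ := Set.inter_subset_right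
  le_inf _ _ _ h1 h2 := Set.subset_inter h1 h2

/-- The variety defined by the identities in `E`. -/
def varietyOf (E : Set (Term × Term)) : IZVar := ⟨Mod E, E, rfl⟩

theorem le_iff {K L : IZVar} : K ≤ L ↔ ∀ A ∈ K.1, A ∈ L.1 := Iff.rfl

theorem mem_sup {K L : IZVar} {A : ZAlg} : A ∈ (K ⊔ L).1 ↔ IsIZ A ∧
    ∀ s t : Term, (∀ B ∈ K.1, Holds B s t) → (∀ B ∈ L.1, Holds B s t) → Holds A s t := by
  constructor
  · rintro ⟨h1, h2⟩
    exact ⟨h1, fun s t hK hL => h2 s t fun B hB => hB.elim (hK B) (hL B)⟩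
  · rintro ⟨h1, h2⟩
    exact ⟨h1, fun s t h => h2 s t (fun B hB => h B (Or.inl hB)) (fun B hB => h B (Or.inr hB))⟩

theorem mem_inf {K L : IZVar} {A : ZAlg} : A ∈ (K ⊓ L).1 ↔ A ∈ K.1 ∧ A ∈ L.1 := Iff.rfl

theorem isIZ (K : IZVar) {A : ZAlg} (hA : A ∈ K.1) : IsIZ A := isIZ_of_mem K.2 hA

/-- Membership in a variety is determined by the identities valid in it. -/
theorem mem_iff (K : IZVar) (A : ZAlg) : A ∈ K.1 ↔ IsIZ A ∧
    ∀ s t : Term, (∀ B ∈ K.1, Holds B s t) → Holds A s t := by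
  constructor
  · intro h
    exact ⟨isIZ K h, fun s t hst => hst A h⟩
  · rintro ⟨h1, h2⟩
    obtain ⟨E, hE⟩ := K.2
    rw [hE]
    refine ⟨h1, fun e he => h2 e.1 e.2 fun B hB => ?_⟩
    rw [hE] at hB
    exact hB.2 e he

/-- the term `t' = t → 0` -/
def Term.pr (t : Term) : Term := .imp t .zero

/-- The variety `ZM` of implication zroupoids with `x → y ≈ 0`. -/
def ZM : IZVar := varietyOf {(.imp (.var 0) (.var 1), .zero)}

theorem mem_ZM {A : ZAlg} : A ∈ ZM.1 ↔ IsIZ A ∧ ∀ x y : A.carrier, A.imp x y = A.zero := by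
  constructor
  · rintro ⟨h1, h2⟩
    refine ⟨h1, fun x y => ?_⟩
    exact h2 _ rfl (fun n => if n = 0 then x else y)
  · rintro ⟨h1, h2⟩
    refine ⟨h1, fun e he v => ?_⟩
    rw [Set.mem_singleton_iff] at he
    subst he
    exact h2 _ _

/-! ### Consequences of the axioms -/

section laws

variable {A : ZAlg} (h : IsIZ A)

include h

/-- `x'''' = x''` in every implication zroupoid.  (Derivation found by completion.) -/
theorem pr4 (c : A.carrier) : A.pr (A.pr (A.pr (A.pr c))) = A.pr (A.pr c) := by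
  obtain ⟨hI, hZ⟩ := h
  let f := A.imp
  let o := A.zero
  have e0 : ∀ x1 x2 x3 : A.carrier,
      (f (f (f (f x3 o) x1) (f (f x2 x3) o)) o) = (f (f x1 x2) x3) :=
    fun x y z => (hI x y z).symm
  have e1 : (f (f o o) o) = o := hZ
  have e4 : ∀ x1 : A.carrier, (f (f (f (f o o) x1) o) o) = (f (f x1 o) o) :=
    fun x1 => ((congrArg (fun h => (f (f (f (f o o) x1) h) o)) (e1).symm)).trans (e0 x1 o o)
  have e16 : ∀ x1 x2 : A.carrier, (f (f x1 (f (f o o) x2)) o) = (f (f x1 x2) o) :=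
    fun x1 x2 => (((e0 x1 (f (f o o) x2) o).symm).trans
      (congrArg (fun h => (f (f (f (f o o) x1) h) o)) (e4 x2))).trans (e0 x1 x2 o)
  have e17 : ∀ x1 x2 : A.carrier,
      (f (f x1 (f (f (f o o) x2) o)) o) = (f (f x1 (f x2 o)) o) :=
    fun x1 x2 => (((e0 x1 (f (f (f o o) x2) o) o).symm).trans
      (congrArg (fun h => (f (f (f (f o o) x1) (f h o)) o)) (e4 x2))).trans (e0 x1 (f x2 o) o)
  have e76 : ∀ x1 x2 x3 : A.carrier,
      (f (f x1 x2) (f (f (f o o) x3) o)) = (f (f x1 x2) (f x3 o)) :=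
    fun x1 x2 x3 => ((((e0 x1 x2 (f (f (f o o) x3) o)).symm).trans
      (congrArg (fun h => (f (f (f (f (f (f (f o o) x3) o) o) x1) h) o)) (e17 x2 x3))).trans
      (congrArg (fun h => (f (f (f h x1) (f (f x2 (f x3 o)) o)) o)) (e4 x3))).trans
      (e0 x1 x2 (f x3 o))
  have e284 : ∀ x1 x2 x3 : A.carrier,
      (f (f (f (f (f o o) x1) o) x2) x3) = (f (f (f x1 o) x2) x3) :=
    fun x1 x2 x3 => (((e0 (f (f (f o o) x1) o) x2 x3).symm).trans
      (congrArg (fun h => (f (f h (f (f x2 x3) o)) o)) (e76 x3 o x1))).trans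
      (e0 (f x1 o) x2 x3)
  have e417 : ∀ x1 x2 x3 : A.carrier,
      (f (f x1 x2) (f (f o o) x3)) = (f (f x1 x2) x3) :=
    fun x1 x2 x3 => ((((e0 x1 x2 (f (f o o) x3)).symm).trans
      (congrArg (fun h => (f h o)) (e284 x3 x1 (f (f x2 (f (f o o) x3)) o)))).trans
      (congrArg (fun h => (f (f (f (f x3 o) x1) h) o)) (e16 x2 x3))).trans (e0 x1 x2 x3)
  have e456 : ∀ x1 x2 x3 : A.carrier,
      (f (f (f (f o o) x1) x2) x3) = (f (f x1 x2) x3) :=
    fun x1 x2 x3 => (((e0 (f (f o o) x1) x2 x3).symm).trans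
      (congrArg (fun h => (f (f h (f (f x2 x3) o)) o)) (e417 x3 o x1))).trans (e0 x1 x2 x3)
  have e477 : ∀ x1 x2 : A.carrier, (f (f x1 (f (f x2 o) o)) o) = (f (f x1 x2) o) :=
    fun x1 x2 => ((e456 x1 (f (f x2 o) o) o).symm).trans (e0 x1 x2 o)
  have e533 : ∀ x1 x2 : A.carrier, (f (f (f (f x1 o) o) o) x2) = (f (f x1 o) x2) :=
    fun x1 x2 => (((e456 (f (f x1 o) o) o x2).symm).trans
      (congrArg (fun h => (f h x2)) (e477 (f o o) x1))).trans (e456 x1 o x2)
  exact e533 c o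

end laws

/-- Values of terms in algebras of `ZM`. -/
theorem eval_ZM {A : ZAlg} (hA : A ∈ ZM.1) (v : ℕ → A.carrier) (t : Term)
    (ht : ∀ i, t ≠ .var i) : t.eval A v = A.zero := by
  cases t with
  | var i => exact absurd rfl (ht i)
  | zero => rfl
  | imp s t => exact (mem_ZM.1 hA).2 _ _

/-- If a variety satisfies an identity `x_i ≈ t` with `t ≠ x_i` then it satisfies `x'' ≈ x`. -/
theorem pr2_of_identity {A : ZAlg} (hA : IsIZ A) (i : ℕ) (t : Term) (ht : t ≠ .var i)
    (h : Holds A (.var i) t) (a : A.carrier) : A.pr (A.pr a) = a := by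
  cases t with
  | var j =>
    have hji : j ≠ i := fun e => ht (by rw [e])
    have h1 : ∀ b c : A.carrier, b = c := by
      intro b c
      have := h (fun n => if n = i then b else c)
      simpa [Term.eval, hji] using this
    exact h1 _ _
  | zero =>
    have h1 : ∀ b : A.carrier, b = A.zero := fun b => h (fun _ => b)
    rw [h1 (A.pr (A.pr a)), h1 a]
  | imp s t =>
    have h1 : ∀ b : A.carrier, ∃ c d, b = A.imp c d := fun b => ⟨_, _, h (fun _ => b)⟩
    have h2 : ∀ b : A.carrier, ∃ c, b = A.pr c := by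
      intro b
      obtain ⟨c, d, hb⟩ := h1 b
      obtain ⟨e, f, hc⟩ := h1 c
      rw [hb, hc, hA.1 e f d]
      exact ⟨_, rfl⟩
    obtain ⟨c, hc⟩ := h2 a
    obtain ⟨d, hd⟩ := h2 c
    rw [hc, hd]
    exact pr4 hA d

/-- A variety that does not contain `ZM` satisfies `x'' ≈ x`. -/
theorem pr2_of_not_le {X : IZVar} (hX : ¬ ZM ≤ X) {A : ZAlg} (hA : A ∈ X.1) (a : A.carrier) :
    A.pr (A.pr a) = a := by
  rw [le_iff] at hX
  push Not at hX
  obtain ⟨B, hB, hBX⟩ := hX
  rw [mem_iff] at hBX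
  have hBiz := (mem_ZM.1 hB).1
  have : ∃ s t : Term, (∀ C ∈ X.1, Holds C s t) ∧ ¬ Holds B s t := by
    by_contra hcon
    push Not at hcon
    exact hBX ⟨hBiz, hcon⟩
  obtain ⟨s, t, hst, hnot⟩ := this
  -- one of the two sides is a variable
  have hcase : (∃ i, s = .var i) ∨ (∃ i, t = .var i) := by
    by_contra hcon
    push Not at hcon
    apply hnot
    intro v
    rw [eval_ZM hB v s hcon.1, eval_ZM hB v t hcon.2]
  rcases hcase with ⟨i, rfl⟩ | ⟨i, rfl⟩
  · refine pr2_of_identity (isIZ X hA) i t ?_ (hst A hA) a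
    rintro rfl
    exact hnot fun _ => rfl
  · refine pr2_of_identity (isIZ X hA) i s ?_ (fun v => (hst A hA v).symm) a
    rintro rfl
    exact hnot fun _ => rfl

/-- The two-element algebra of `ZM`. -/
def zm2 : ZAlg := ⟨Bool, fun _ _ => false, false⟩

theorem zm2_mem : zm2 ∈ ZM.1 := mem_ZM.2 ⟨⟨fun _ _ _ => rfl, rfl⟩, fun _ _ => rfl⟩

/-- A variety containing `ZM` does not satisfy `x'' ≈ x`. -/
theorem not_le_of_pr2 {X : IZVar} (h : ∀ A ∈ X.1, ∀ a : A.carrier, A.pr (A.pr a) = a) :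
    ¬ ZM ≤ X := by
  intro hle
  have h1 : false = true := h zm2 (hle zm2_mem) true
  exact Bool.false_ne_true h1

/-- If `ZM` is contained neither in `X` nor in `Y` then it is not contained in `X ∨ Y`. -/
theorem not_le_sup {X Y : IZVar} (hX : ¬ ZM ≤ X) (hY : ¬ ZM ≤ Y) : ¬ ZM ≤ X ⊔ Y := by
  apply not_le_of_pr2
  intro A hA a
  exact (mem_sup.1 hA).2 ((Term.var 0).pr.pr) (.var 0)
    (fun B hB v => pr2_of_not_le hX hB (v 0)) (fun B hB v => pr2_of_not_le hY hB (v 0))
    (fun _ => a)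

end Pool.Agent.IZ726
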